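import Pool.Agent.helper72.UP.Spec

/-!
# Project UP, row FOO
-/

set_option autoImplicit false

namespace Pool.Agent.helper72.UP

open Finset

theorem FOO_mono (h r s : ℕ) (hrs : r ≤ s) (hs : s ≤ h) :
    (2 * h + 1).choose r ≤ (2 * h + 1).choose s := by
  induction s, hrs using Nat.le_induction with
  | base => exact le_rfl
  | succ s hrs ih =>
    exact (ih (by omega)).trans (Nat.choose_le_succ_of_lt_half_left (by omega))

theorem FOO_small (h r : ℕ) (hr : r < 2 * h + 2) (h1 : r ≠ h) (h2 : r ≠ h + 1) :
    (2 * h + 1).choose r ≤ (2 * h + 1).choose (h + 2) := by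
  have h0 : 1 ≤ h := by omega
  have hsym : (2 * h + 1).choose (h - 1) = (2 * h + 1).choose (h + 2) := by
    rw [← Nat.choose_symm (show h - 1 ≤ 2 * h + 1 by omega)]
    congr 1
    omega
  rw [← hsym]
  rcases Nat.lt_or_ge r h with h3 | h3
  · exact FOO_mono h r (h - 1) (by omega) (by omega)
  · rw [← Nat.choose_symm (show r ≤ 2 * h + 1 by omega)]
    exact FOO_mono h (2 * h + 1 - r) (h - 1) (by omega) (by omega)

theorem FOO : FOO_stmt := by
  intro h
  have e1 : (2 * h + 1).choose h = (2 * h + 1).choose (h + 1) := by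
    rw [← Nat.choose_symm (show h ≤ 2 * h + 1 by omega)]
    congr 1
    omega
  have e2 : (2 * h + 1).choose (h + 2) * (h + 2) = (2 * h + 1).choose (h + 1) * h := by
    have := Nat.choose_succ_right_eq (2 * h + 1) (h + 1)
    have h3 : 2 * h + 1 - (h + 1) = h := by omega
    rw [h3] at this
    exact this
  have e3 : (2 * h + 3).choose (h + 1) = 3 * (2 * h + 1).choose (h + 1) + (2 * h + 1).choose (h + 2) := by
    have a1 : (2 * h + 3).choose (h + 1) = (2 * h + 3).choose (h + 2) := by
      rw [← Nat.choose_symm (show h + 1 ≤ 2 * h + 3 by omega)]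
      congr 1
      omega
    have a2 : (2 * h + 3).choose (h + 2) = (2 * h + 2).choose (h + 1) + (2 * h + 2).choose (h + 2) :=
      Nat.choose_succ_succ' _ _
    have a3 : (2 * h + 2).choose (h + 1) = (2 * h + 1).choose h + (2 * h + 1).choose (h + 1) :=
      Nat.choose_succ_succ' _ _
    have a4 : (2 * h + 2).choose (h + 2) = (2 * h + 1).choose (h + 1) + (2 * h + 1).choose (h + 2) :=
      Nat.choose_succ_succ' _ _
    rw [a1, a2, a3, a4, e1]
    ring
  set D : ℝ := ((2 * h + 1).choose (h + 1) : ℝ) with hD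
  set l : ℝ := ((2 * h + 1).choose (h + 2) : ℝ) with hl
  have e2' : l * (h + 2) = D * h := by
    rw [hD, hl]
    exact_mod_cast e2
  have e3' : ((2 * h + 3).choose (h + 1) : ℝ) = 3 * D + l := by
    rw [hD, hl]
    exact_mod_cast e3
  have hlD : l ≤ D := by
    have hD0 : 0 ≤ D := by rw [hD]; positivity
    have hh : (0 : ℝ) ≤ h := Nat.cast_nonneg h
    have h4 : l * (h + 2) ≤ D * (h + 2) := by
      rw [e2']
      nlinarith
    exact le_of_mul_le_mul_right h4 (by positivity)
  have hsum : ∑ r ∈ range (2 * h + 2), max (((2 * h + 1).choose r : ℝ) - l) 0 = 2 * (D - l) := by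
    have hsub : ({h, h + 1} : Finset ℕ) ⊆ range (2 * h + 2) := by
      intro r hr
      rw [mem_insert, mem_singleton] at hr
      rw [mem_range]
      omega
    rw [← Finset.sum_subset hsub]
    · rw [Finset.sum_pair (by omega), e1, ← hD, max_eq_left (by linarith)]
      ring
    · intro r hr hr2
      rw [mem_range] at hr
      rw [mem_insert, mem_singleton, not_or] at hr2
      apply max_eq_right
      have h5 : ((2 * h + 1).choose r : ℝ) ≤ l := by
        rw [hl]
        exact_mod_cast FOO_small h r hr hr2.1 hr2.2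
      linarith
  rw [hsum, e3']
  apply le_of_eq
  linear_combination (2 : ℝ) * e2'

end Pool.Agent.helper72.UP
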